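import Mathlib

/-!
# Flat acts over a monoid and flat covers: definitions

Let `S` be a monoid. Right `S`-acts are given by `MulAction Sᵐᵒᵖ A`, with `a·s` written
`op s • a`; left `S`-acts are given by `MulAction S X`. Morphisms of right acts are the
equivariant maps `A →[Sᵐᵒᵖ] B`, and morphisms of left acts are the equivariant maps `X →[S] Y`.
-/

set_option autoImplicit false

universe u

open MulOpposite

namespace Pool.Agent.Helper6.FlatActs

variable (S : Type u) [Monoid S]

/-- The basic identifications `(a·s, x) ~ (a, s·x)` on `A × X`, for a right act `A` (an action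
of the opposite monoid) and a left act `X`. -/
def TRel (A X : Type u) [MulAction Sᵐᵒᵖ A] [MulAction S X] (p q : A × X) : Prop :=
  ∃ (a : A) (s : S) (x : X), p = (op s • a, x) ∧ q = (a, s • x)

/-- The tensor product `A ⊗ X`: the quotient of `A × X` by the equivalence relation generated by
`(a·s, x) ~ (a, s·x)`. -/
def Tensor (A X : Type u) [MulAction Sᵐᵒᵖ A] [MulAction S X] : Type u :=
  Quot (TRel S A X)

/-- The map `A ⊗ f : A ⊗ X → A ⊗ Y` induced by a morphism `f : X → Y` of left acts. -/
def Tensor.map (A : Type u) {X Y : Type u} [MulAction Sᵐᵒᵖ A] [MulAction S X] [MulAction S Y]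
    (f : X →[S] Y) : Tensor S A X → Tensor S A Y :=
  Quot.map (fun p => (p.1, f p.2))
    (by rintro _ _ ⟨a, s, x, rfl, rfl⟩; exact ⟨a, s, f x, rfl, by simp⟩)

/-- A right act `A` is flat if `A ⊗ -` sends every injective morphism of left acts to an injective
map. -/
def IsFlat (A : Type u) [MulAction Sᵐᵒᵖ A] : Prop :=
  ∀ (X Y : Type u) [Nonempty X] [Nonempty Y] [MulAction S X] [MulAction S Y] (f : X →[S] Y),
    Function.Injective f → Function.Injective (Tensor.map S A f)

/-- A flat cover of a right act `A` is a morphism `g : F → A` with `F` a (nonempty) flat act such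
that every morphism from a flat act to `A` factors through `g`, and every endomorphism `f` of `F`
with `g ∘ f = g` is an automorphism. -/
structure IsFlatCover {F A : Type u} [MulAction Sᵐᵒᵖ F] [MulAction Sᵐᵒᵖ A]
    (g : F →[Sᵐᵒᵖ] A) : Prop where
  nonempty : Nonempty F
  flat : IsFlat S F
  factors : ∀ (F' : Type u) [Nonempty F'] [MulAction Sᵐᵒᵖ F'] (h : F' →[Sᵐᵒᵖ] A),
    IsFlat S F' → ∃ f : F' →[Sᵐᵒᵖ] F, g.comp f = h
  automorphism : ∀ f : F →[Sᵐᵒᵖ] F, g.comp f = g →
    ∃ f' : F →[Sᵐᵒᵖ] F, f.comp f' = MulActionHom.id Sᵐᵒᵖ ∧ f'.comp f = MulActionHom.id Sᵐᵒᵖ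

end Pool.Agent.Helper6.FlatActs
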