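import Pool.Agent.Helper6.FlatActs.Defs

/-!
# Every act over a monoid has a flat cover: the proof

Outline.  Call an embedding `P → Q` of right acts good if it stays injective after tensoring
with every left act `X` and if `p ⊗ x = q ⊗ x'` in `Q ⊗ X` implies `p ⊗ x = p' ⊗ x'` in `P ⊗ X`
for some `p'` in `P`.

1. Pushouts of flat acts along good embeddings are flat, with good cocone maps.
2. Hence the category `D` of all flat acts over `A` of cardinality at most `max |S| ℵ₀`,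
   with good embeddings over `A` as morphisms, has the property that each span can be completed
   to a commutative square. Colimits of sets over such a category preserve injections, so the
   colimit `G` of `D` is flat.
3. A flat act over `A` is the directed union of its small good subacts (a Skolem hull argument), so
   it maps to `G` over `A`. So `G` is a flat precover of `A`.
4. Two applications of the Zorn lemma to coherent systems of endomorphisms of a precover, and one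
   sequential colimit, turn the precover into a cover.
-/

set_option autoImplicit false
set_option linter.unusedVariables false

universe u

open MulOpposite Cardinal

namespace Pool.Agent.Helper6.FlatActs

section part1
variable {S : Type u} [Monoid S]

section tensor

variable {A B X Y : Type u} [MulAction Sᵐᵒᵖ A] [MulAction Sᵐᵒᵖ B] [MulAction S X] [MulAction S Y]

/-- pure tensors -/
def tmk (a : A) (x : X) : Tensor S A X := Quot.mk _ (a, x)

theorem tmk_smul (s : S) (a : A) (x : X) : tmk (S := S) (op s • a) x = tmk a (s • x) :=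
  Quot.sound ⟨a, s, x, rfl, rfl⟩

theorem tmk_surj (t : Tensor S A X) : ∃ a x, t = tmk a x := by
  induction t using Quot.ind with
  | mk p => exact ⟨p.1, p.2, rfl⟩

theorem map_tmk (f : X →[S] Y) (a : A) (x : X) :
    Tensor.map S A f (tmk a x) = tmk (S := S) a (f x) := rfl

/-- functoriality in the first variable -/
def mapL (X : Type u) [MulAction S X] (f : A →[Sᵐᵒᵖ] B) : Tensor S A X → Tensor S B X :=
  Quot.map (fun p => (f p.1, p.2))
    (by rintro _ _ ⟨a, s, x, rfl, rfl⟩; exact ⟨f a, s, x, by simp, rfl⟩)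

theorem mapL_tmk (f : A →[Sᵐᵒᵖ] B) (a : A) (x : X) : mapL X f (tmk a x) = tmk (f a) x := rfl

theorem tmk_map (f : A →[Sᵐᵒᵖ] B) {a a' : A} {x x' : X} (h : tmk (S := S) a x = tmk a' x') :
    tmk (S := S) (f a) x = tmk (f a') x' := by
  rw [← mapL_tmk, h, mapL_tmk]

/-- Elementwise form of flatness. -/
theorem isFlat_iff : IsFlat S A ↔ ∀ (X Y : Type u) [MulAction S X] [MulAction S Y] (f : X →[S] Y),
    Function.Injective f → ∀ (a a' : A) (x x' : X), tmk (S := S) a (f x) = tmk a' (f x') →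
      tmk (S := S) a x = tmk a' x' := by
  constructor
  · intro h X Y _ _ f hf a a' x x' e
    have : Nonempty X := ⟨x⟩
    have : Nonempty Y := ⟨f x⟩
    exact h X Y f hf e
  · intro h X Y _ _ _ _ f hf t t' e
    obtain ⟨a, x, rfl⟩ := tmk_surj t
    obtain ⟨a', x', rfl⟩ := tmk_surj t'
    exact h X Y f hf a a' x x' e

/-- one can prove things about equality of pure tensors by induction -/
theorem tmk_eq_induction {R : A × X → A × X → Prop}
    (hrefl : ∀ p, R p p) (hsymm : ∀ p q, R p q → R q p)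
    (htrans : ∀ p q r, R p q → R q r → R p r)
    (hrel : ∀ (a : A) (s : S) (x : X), R (op s • a, x) (a, s • x))
    {a a' : A} {x x' : X} (h : tmk (S := S) a x = tmk a' x') : R (a, x) (a', x') := by
  have h' := Quot.eqvGen_exact h
  clear h
  generalize (a, x) = p at h'
  generalize (a', x') = q at h'
  induction h' with
  | rel p q hpq =>
    obtain ⟨a, s, x, rfl, rfl⟩ := hpq
    exact hrel a s x
  | refl p => exact hrefl p
  | symm p q _ ih => exact hsymm _ _ ih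
  | trans p q r _ _ ih1 ih2 => exact htrans _ _ _ ih1 ih2

end tensor

/-- Good (pure, stable) embeddings. -/
structure Good {P Q : Type u} [MulAction Sᵐᵒᵖ P] [MulAction Sᵐᵒᵖ Q] (j : P →[Sᵐᵒᵖ] Q) : Prop where
  inj : Function.Injective j
  tinj : ∀ (X : Type u) [MulAction S X] (p p' : P) (x x' : X),
    tmk (S := S) (j p) x = tmk (j p') x' → tmk (S := S) p x = tmk p' x'
  stable : ∀ (X : Type u) [MulAction S X] (p : P) (q : Q) (x x' : X),
    tmk (S := S) (j p) x = tmk q x' → ∃ p' : P, tmk (S := S) p x = tmk p' x'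

theorem Good.id {P : Type u} [MulAction Sᵐᵒᵖ P] : Good (MulActionHom.id Sᵐᵒᵖ : P →[Sᵐᵒᵖ] P) where
  inj := Function.injective_id
  tinj := fun X _ p p' x x' h => h
  stable := fun X _ p q x x' h => ⟨q, h⟩

theorem Good.comp {P Q R : Type u} [MulAction Sᵐᵒᵖ P] [MulAction Sᵐᵒᵖ Q] [MulAction Sᵐᵒᵖ R]
    {j : P →[Sᵐᵒᵖ] Q} {k : Q →[Sᵐᵒᵖ] R} (hk : Good k) (hj : Good j) : Good (k.comp j) where
  inj := hk.inj.comp hj.inj
  tinj := fun X _ p p' x x' h => hj.tinj X _ _ _ _ (hk.tinj X _ _ _ _ h)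
  stable := fun X _ p q x x' h => by
    obtain ⟨q', hq'⟩ := hk.stable X _ _ _ _ h
    exact hj.stable X _ _ _ _ hq'

theorem Good.of_comp {P Q R : Type u} [MulAction Sᵐᵒᵖ P] [MulAction Sᵐᵒᵖ Q] [MulAction Sᵐᵒᵖ R]
    {j : P →[Sᵐᵒᵖ] Q} {k : Q →[Sᵐᵒᵖ] R} (h : Good (k.comp j)) : Good j where
  inj := Function.Injective.of_comp (f := k) h.inj
  tinj := fun X _ p p' x x' e => h.tinj X _ _ _ _ (tmk_map k e)
  stable := fun X _ p q x x' e => h.stable X p (k q) x x' (tmk_map k e)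

theorem Good.flat {P Q : Type u} [MulAction Sᵐᵒᵖ P] [MulAction Sᵐᵒᵖ Q] {j : P →[Sᵐᵒᵖ] Q}
    (hj : Good j) (hQ : IsFlat S Q) : IsFlat S P := by
  rw [isFlat_iff] at hQ ⊢
  intro X Y _ _ f hf a a' x x' e
  exact hj.tinj X _ _ _ _ (hQ X Y f hf _ _ _ _ (tmk_map j e))

/-! ### Flat acts over `A` -/

/-- Flat acts over `A`. -/
structure FAct (S : Type u) [Monoid S] (A : Type u) [MulAction Sᵐᵒᵖ A] where
  X : Type u
  [inst : MulAction Sᵐᵒᵖ X]
  π : X →[Sᵐᵒᵖ] A
  flat : IsFlat S X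

attribute [instance] FAct.inst

variable {A : Type u} [MulAction Sᵐᵒᵖ A]

/-- Morphisms over `A`. -/
@[ext] structure FHom (P Q : FAct S A) where
  f : P.X →[Sᵐᵒᵖ] Q.X
  hov : ∀ x, Q.π (f x) = P.π x

instance (P Q : FAct S A) : CoeFun (FHom P Q) (fun _ => P.X → Q.X) := ⟨fun f => f.f⟩

@[simp] theorem FHom.map_smul {P Q : FAct S A} (f : FHom P Q) (s : Sᵐᵒᵖ) (x : P.X) :
    f (s • x) = s • f x := f.f.map_smul s x

theorem FHom.ext' {P Q : FAct S A} {f g : FHom P Q} (h : ∀ x, f x = g x) : f = g := by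
  cases f; cases g; simp only [FHom.mk.injEq]; ext x; exact h x

/-- identity -/
def FHom.id (P : FAct S A) : FHom P P := ⟨MulActionHom.id _, fun _ => rfl⟩

/-- composition -/
def FHom.comp {P Q R : FAct S A} (g : FHom Q R) (f : FHom P Q) : FHom P R :=
  ⟨g.f.comp f.f, fun x => by
    rw [MulActionHom.comp_apply, g.hov, f.hov]⟩

@[simp] theorem FHom.comp_apply {P Q R : FAct S A} (g : FHom Q R) (f : FHom P Q) (x : P.X) :
    (g.comp f) x = g (f x) := rfl

@[simp] theorem FHom.id_apply {P : FAct S A} (x : P.X) : (FHom.id P) x = x := rfl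

/-- Diagrams of flat acts over `A` with the Ore condition. -/
structure Diag (S : Type u) [Monoid S] (A : Type u) [MulAction Sᵐᵒᵖ A] where
  ι : Type u
  P : ι → FAct S A
  M : ∀ {i j : ι}, FHom (P i) (P j) → Prop
  id_mem : ∀ i, M (FHom.id (P i))
  comp_mem : ∀ {i j k : ι} (f : FHom (P i) (P j)) (g : FHom (P j) (P k)),
    M f → M g → M (g.comp f)
  ore : ∀ {i j k : ι} (f : FHom (P i) (P j)) (g : FHom (P i) (P k)), M f → M g →
    ∃ (l : ι) (f' : FHom (P j) (P l)) (g' : FHom (P k) (P l)), M f' ∧ M g' ∧ f'.comp f = g'.comp g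

namespace Diag

variable (D : Diag S A)

/-- the colimit equivalence relation -/
def E (p q : Σ i, (D.P i).X) : Prop :=
  ∃ (k : D.ι) (f : FHom (D.P p.1) (D.P k)) (g : FHom (D.P q.1) (D.P k)),
    D.M f ∧ D.M g ∧ f p.2 = g q.2

theorem E_equiv : Equivalence D.E where
  refl := fun p => ⟨p.1, FHom.id _, FHom.id _, D.id_mem _, D.id_mem _, rfl⟩
  symm := by
    rintro p q ⟨k, f, g, hf, hg, e⟩
    exact ⟨k, g, f, hg, hf, e.symm⟩
  trans := by
    rintro p q r ⟨k, f, g, hf, hg, e⟩ ⟨k', f', g', hf', hg', e'⟩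
    obtain ⟨l, u, v, hu, hv, huv⟩ := D.ore g f' hg hf'
    refine ⟨l, u.comp f, v.comp g', D.comp_mem _ _ hf hu, D.comp_mem _ _ hg' hv, ?_⟩
    rw [FHom.comp_apply, e, FHom.comp_apply, ← e', ← FHom.comp_apply, huv, FHom.comp_apply]

/-- the setoid -/
def setoid : Setoid (Σ i, (D.P i).X) := ⟨D.E, D.E_equiv⟩

/-- the carrier of the colimit -/
def Carrier : Type u := Quotient D.setoid

/-- the cocone maps -/
def cmk (i : D.ι) (x : (D.P i).X) : D.Carrier := Quotient.mk D.setoid ⟨i, x⟩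

theorem cmk_eq {i j : D.ι} {x : (D.P i).X} {y : (D.P j).X} :
    D.cmk i x = D.cmk j y ↔ ∃ (k : D.ι) (f : FHom (D.P i) (D.P k)) (g : FHom (D.P j) (D.P k)),
    D.M f ∧ D.M g ∧ f x = g y :=
  ⟨fun h => Quotient.exact (s := D.setoid) h, fun h => Quotient.sound (s := D.setoid) h⟩

theorem cmk_map {i j : D.ι} (f : FHom (D.P i) (D.P j)) (hf : D.M f) (x : (D.P i).X) :
    D.cmk j (f x) = D.cmk i x :=
  D.cmk_eq.2 ⟨j, FHom.id _, f, D.id_mem _, hf, rfl⟩

theorem cmk_surj (c : D.Carrier) : ∃ i x, c = D.cmk i x := by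
  induction c using Quotient.ind with
  | _ p => exact ⟨p.1, p.2, rfl⟩

instance : MulAction Sᵐᵒᵖ D.Carrier where
  smul := fun s => Quotient.map' (s₁ := D.setoid) (s₂ := D.setoid) (fun p => ⟨p.1, s • p.2⟩)
    (by
      rintro p q ⟨k, f, g, hf, hg, e⟩
      refine ⟨k, f, g, hf, hg, ?_⟩
      simp only [FHom.map_smul, e])
  one_smul := by
    intro c
    obtain ⟨i, x, rfl⟩ := D.cmk_surj c
    exact congrArg (D.cmk i) (one_smul Sᵐᵒᵖ x)
  mul_smul := by
    intro s t c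
    obtain ⟨i, x, rfl⟩ := D.cmk_surj c
    exact congrArg (D.cmk i) (mul_smul s t x)

theorem smul_cmk (s : Sᵐᵒᵖ) (i : D.ι) (x : (D.P i).X) : s • D.cmk i x = D.cmk i (s • x) := rfl

/-- the cocone maps as morphisms of acts -/
def inj (i : D.ι) : (D.P i).X →[Sᵐᵒᵖ] D.Carrier := ⟨D.cmk i, fun _ _ => rfl⟩

theorem tmk_eq {X : Type u} [MulAction S X] {i j : D.ι} {p : (D.P i).X} {q : (D.P j).X} {x y : X}
    (h : tmk (S := S) (D.cmk i p) x = tmk (D.cmk j q) y) :
    ∃ (k : D.ι) (f : FHom (D.P i) (D.P k)) (g : FHom (D.P j) (D.P k)),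
    D.M f ∧ D.M g ∧ tmk (S := S) (f p) x = tmk (g q) y := by
  let R : D.Carrier × X → D.Carrier × X → Prop := fun a b =>
    ∀ (i j : D.ι) (p : (D.P i).X) (q : (D.P j).X), a.1 = D.cmk i p → b.1 = D.cmk j q →
      ∃ (k : D.ι) (f : FHom (D.P i) (D.P k)) (g : FHom (D.P j) (D.P k)),
      D.M f ∧ D.M g ∧ tmk (S := S) (f p) a.2 = tmk (g q) b.2
  have key : R (D.cmk i p, x) (D.cmk j q, y) := by
    refine tmk_eq_induction (R := R) ?_ ?_ ?_ ?_ h
    · rintro ⟨a, x⟩ i j p q hp hq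
      obtain ⟨k, f, g, hf, hg, e⟩ := D.cmk_eq.1 (hp.symm.trans hq)
      exact ⟨k, f, g, hf, hg, by rw [e]⟩
    · rintro a b h i j p q hp hq
      obtain ⟨k, f, g, hf, hg, e⟩ := h j i q p hq hp
      exact ⟨k, g, f, hg, hf, e.symm⟩
    · rintro a b c h1 h2 i j p q hp hq
      obtain ⟨m, z, hz⟩ := D.cmk_surj b.1
      obtain ⟨k, f, g, hf, hg, e⟩ := h1 i m p z hp hz
      obtain ⟨k', f', g', hf', hg', e'⟩ := h2 m j z q hz hq
      obtain ⟨l, u, v, hu, hv, huv⟩ := D.ore g f' hg hf'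
      refine ⟨l, u.comp f, v.comp g', D.comp_mem _ _ hf hu, D.comp_mem _ _ hg' hv, ?_⟩
      have e1 := tmk_map u.f e
      have e2 := tmk_map v.f e'
      have e3 : u.f (g.f z) = v.f (f'.f z) := congrArg (fun w : FHom _ _ => w.f z) huv
      rw [e3] at e1
      exact e1.trans e2
    · rintro a s x i j p q hp hq
      simp only at hp hq
      rw [hq, D.smul_cmk] at hp
      obtain ⟨k, f, g, hf, hg, e⟩ := D.cmk_eq.1 hp.symm
      refine ⟨k, f, g, hf, hg, ?_⟩
      simp only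
      rw [e, FHom.map_smul, tmk_smul]
  exact key i j p q rfl rfl

theorem flat : IsFlat S D.Carrier := by
  rw [isFlat_iff]
  intro X Y _ _ f hf a a' x x' e
  obtain ⟨i, p, rfl⟩ := D.cmk_surj a
  obtain ⟨j, q, rfl⟩ := D.cmk_surj a'
  obtain ⟨k, g, g', hg, hg', e'⟩ := D.tmk_eq e
  have := isFlat_iff.1 (D.P k).flat X Y f hf _ _ _ _ e'
  have := tmk_map (D.inj k) this
  rwa [show D.inj k (g p) = D.cmk i p from D.cmk_map g hg p,
    show D.inj k (g' q) = D.cmk j q from D.cmk_map g' hg' q] at this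

/-- the colimit as a flat act over `A` -/
def colim : FAct S A where
  X := D.Carrier
  π := ⟨Quotient.lift (s := D.setoid) (fun p => (D.P p.1).π p.2) (by
      rintro p q ⟨k, f, g, hf, hg, e⟩
      rw [← f.hov, ← g.hov, e]), by
      intro s c
      obtain ⟨i, x, rfl⟩ := D.cmk_surj c
      exact (D.P i).π.map_smul s x⟩
  flat := D.flat

/-- the cocone -/
def inc (i : D.ι) : FHom (D.P i) D.colim := ⟨D.inj i, fun _ => rfl⟩

theorem inc_apply (i : D.ι) (x : (D.P i).X) : D.inc i x = D.cmk i x := rfl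

/-- universal property -/
def desc (Q : FAct S A) (u : ∀ i, FHom (D.P i) Q)
    (hu : ∀ (i j : D.ι) (f : FHom (D.P i) (D.P j)), D.M f → (u j).comp f = u i) :
    FHom D.colim Q where
  f := ⟨Quotient.lift (s := D.setoid) (fun p => u p.1 p.2) (by
      rintro p q ⟨k, f, g, hf, hg, e⟩
      rw [← hu _ _ f hf, ← hu _ _ g hg, FHom.comp_apply, FHom.comp_apply, e]), by
      intro s c
      obtain ⟨i, x, rfl⟩ := D.cmk_surj c
      exact (u i).map_smul s x⟩
  hov := by
    intro c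
    obtain ⟨i, x, rfl⟩ := D.cmk_surj c
    exact (u i).hov x

theorem desc_cmk (Q : FAct S A) (u : ∀ i, FHom (D.P i) Q)
    (hu : ∀ (i j : D.ι) (f : FHom (D.P i) (D.P j)), D.M f → (u j).comp f = u i)
    (i : D.ι) (x : (D.P i).X) : D.desc Q u hu (D.cmk i x) = u i x := rfl

end Diag

end part1

section part2

variable {S : Type u} [Monoid S]

section pushout

variable {P Q R : Type u} [MulAction Sᵐᵒᵖ P] [MulAction Sᵐᵒᵖ Q] [MulAction Sᵐᵒᵖ R]
  (j : P →[Sᵐᵒᵖ] Q) (k : P →[Sᵐᵒᵖ] R)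

/-- gluing relation -/
inductive PRel : Q ⊕ R → Q ⊕ R → Prop
  | glue (p : P) : PRel (Sum.inl (j p)) (Sum.inr (k p))

/-- pushout -/
def PO : Type u := Quot (PRel j k)

/-- class map -/
def pmk (a : Q ⊕ R) : PO j k := Quot.mk _ a

theorem pmk_surj (w : PO j k) : ∃ a, w = pmk j k a := by
  induction w using Quot.ind with
  | mk a => exact ⟨a, rfl⟩

theorem pmk_glue (p : P) : pmk j k (Sum.inl (j p)) = pmk j k (Sum.inr (k p)) :=
  Quot.sound (PRel.glue p)

instance : MulAction Sᵐᵒᵖ (PO j k) where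
  smul := fun s => Quot.map (fun a => s • a) (by
    rintro _ _ ⟨p⟩
    rw [Sum.smul_inl, Sum.smul_inr, ← MulActionHom.map_smul, ← MulActionHom.map_smul]
    exact PRel.glue (s • p))
  one_smul := by
    intro w
    obtain ⟨a, rfl⟩ := pmk_surj j k w
    exact congrArg (pmk j k) (one_smul Sᵐᵒᵖ a)
  mul_smul := by
    intro s t w
    obtain ⟨a, rfl⟩ := pmk_surj j k w
    exact congrArg (pmk j k) (mul_smul s t a)

theorem smul_pmk (s : Sᵐᵒᵖ) (a : Q ⊕ R) : s • pmk j k a = pmk j k (s • a) := rfl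

/-- left inclusion -/
def pinl : Q →[Sᵐᵒᵖ] PO j k := ⟨fun q => pmk j k (Sum.inl q), fun _ _ => rfl⟩
/-- right inclusion -/
def pinr : R →[Sᵐᵒᵖ] PO j k := ⟨fun q => pmk j k (Sum.inr q), fun _ _ => rfl⟩

theorem pinl_apply (q : Q) : pinl j k q = pmk j k (Sum.inl q) := rfl
theorem pinr_apply (q : R) : pinr j k q = pmk j k (Sum.inr q) := rfl

theorem pinl_comp (p : P) : pinl j k (j p) = pinr j k (k p) := pmk_glue j k p

variable {X : Type u} [MulAction S X]

/-- equality of pure tensors in the pushout -/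
def PE : (Q ⊕ R) × X → (Q ⊕ R) × X → Prop
  | (Sum.inl q, x), (Sum.inl q', x') => tmk (S := S) q x = tmk q' x'
  | (Sum.inl q, x), (Sum.inr r, x') =>
      ∃ (p : P) (z : X), tmk (S := S) (j p) z = tmk q x ∧ tmk (S := S) (k p) z = tmk r x'
  | (Sum.inr r, x), (Sum.inl q, x') =>
      ∃ (p : P) (z : X), tmk (S := S) (j p) z = tmk q x' ∧ tmk (S := S) (k p) z = tmk r x
  | (Sum.inr r, x), (Sum.inr r', x') => tmk (S := S) r x = tmk r' x'

theorem PE_refl (a : (Q ⊕ R) × X) : PE j k a a := by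
  obtain ⟨a | a, x⟩ := a
  · exact rfl
  · exact rfl

theorem PE_symm {a b : (Q ⊕ R) × X} (h : PE j k a b) : PE j k b a := by
  obtain ⟨a | a, x⟩ := a <;> obtain ⟨b | b, y⟩ := b
  · exact Eq.symm h
  · exact h
  · exact h
  · exact Eq.symm h

variable {j k}

theorem PE_trans (hj : Good j) (hk : Good k) {a b c : (Q ⊕ R) × X} (h1 : PE j k a b)
    (h2 : PE j k b c) : PE j k a c := by
  obtain ⟨a | a, x⟩ := a <;> obtain ⟨b | b, y⟩ := b <;> obtain ⟨c | c, z⟩ := c
  · exact Eq.trans h1 h2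
  · obtain ⟨p, w, e1, e2⟩ := h2
    exact ⟨p, w, e1.trans (Eq.symm h1), e2⟩
  · obtain ⟨p, w, e1, e2⟩ := h1
    obtain ⟨p', w', e1', e2'⟩ := h2
    have := hk.tinj X _ _ _ _ (e2.trans e2'.symm)
    exact e1.symm.trans ((tmk_map j this).trans e1')
  · obtain ⟨p, w, e1, e2⟩ := h1
    exact ⟨p, w, e1, e2.trans h2⟩
  · obtain ⟨p, w, e1, e2⟩ := h1
    exact ⟨p, w, e1.trans h2, e2⟩
  · obtain ⟨p, w, e1, e2⟩ := h1
    obtain ⟨p', w', e1', e2'⟩ := h2
    have := hj.tinj X _ _ _ _ (e1.trans e1'.symm)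
    exact e2.symm.trans ((tmk_map k this).trans e2')
  · obtain ⟨p, w, e1, e2⟩ := h2
    exact ⟨p, w, e1, e2.trans (Eq.symm h1)⟩
  · exact Eq.trans h1 h2

theorem PE_of_pmk_eq (hj : Good j) (hk : Good k) {a b : Q ⊕ R} (h : pmk j k a = pmk j k b)
    (x : X) : PE j k (a, x) (b, x) := by
  have h' := Quot.eqvGen_exact h
  clear h
  induction h' with
  | rel p q hpq =>
    obtain ⟨p⟩ := hpq
    exact ⟨p, x, rfl, rfl⟩
  | refl p => exact PE_refl j k _
  | symm p q _ ih => exact PE_symm j k ih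
  | trans p q r _ _ ih1 ih2 => exact PE_trans hj hk ih1 ih2

theorem PE_smul (s : S) (a : Q ⊕ R) (x : X) : PE j k (op s • a, x) (a, s • x) := by
  obtain a | a := a
  · exact tmk_smul s a x
  · exact tmk_smul s a x

theorem PE_of_tmk_eq (hj : Good j) (hk : Good k) {a b : Q ⊕ R} {x y : X}
    (h : tmk (S := S) (pmk j k a) x = tmk (pmk j k b) y) : PE j k (a, x) (b, y) := by
  let T : PO j k × X → PO j k × X → Prop := fun u v =>
    ∀ (a b : Q ⊕ R), pmk j k a = u.1 → pmk j k b = v.1 → PE j k (a, u.2) (b, v.2)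
  have key : T (pmk j k a, x) (pmk j k b, y) := by
    refine tmk_eq_induction (R := T) ?_ ?_ ?_ ?_ h
    · rintro ⟨w, x⟩ a b ha hb
      exact PE_of_pmk_eq hj hk (ha.trans hb.symm) x
    · rintro u v h a b ha hb
      exact PE_symm j k (h b a hb ha)
    · rintro u v w h1 h2 a b ha hb
      obtain ⟨c, hc⟩ := pmk_surj j k v.1
      exact PE_trans hj hk (h1 a c ha hc.symm) (h2 c b hc.symm hb)
    · rintro w s x a b ha hb
      simp only at ha hb
      rw [← hb, smul_pmk] at ha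
      exact PE_trans hj hk (PE_of_pmk_eq hj hk ha x) (PE_smul s b x)
  exact key a b rfl rfl

theorem pinl_good (hj : Good j) (hk : Good k) : Good (pinl j k) where
  inj := by
    intro q q' h
    have h1 : tmk (S := S) (pmk j k (Sum.inl q)) (1 : S) = tmk (pmk j k (Sum.inl q')) (1 : S) := by
      have : pmk j k (Sum.inl q) = pmk j k (Sum.inl q') := h
      rw [this]
    have h2 : tmk (S := S) q (1 : S) = tmk q' (1 : S) := PE_of_tmk_eq hj hk h1
    have h3 := congrArg (Quot.lift (fun p : Q × S => op p.2 • p.1) (by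
      rintro _ _ ⟨a, s, x, rfl, rfl⟩
      simp only [smul_eq_mul, op_mul, mul_smul])) h2
    simpa [tmk] using h3
  tinj := fun X _ p p' x x' h => PE_of_tmk_eq hj hk h
  stable := by
    intro X _ q w x x' h
    obtain ⟨b, rfl⟩ := pmk_surj j k w
    have h' := PE_of_tmk_eq hj hk (a := Sum.inl q) h
    obtain b | b := b
    · exact ⟨b, h'⟩
    · obtain ⟨p, z, e1, e2⟩ := h'
      obtain ⟨p', hp'⟩ := hk.stable X _ _ _ _ e2
      exact ⟨j p', e1.symm.trans (tmk_map j hp')⟩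

theorem pinr_good (hj : Good j) (hk : Good k) : Good (pinr j k) where
  inj := by
    intro q q' h
    have h1 : tmk (S := S) (pmk j k (Sum.inr q)) (1 : S) = tmk (pmk j k (Sum.inr q')) (1 : S) := by
      have : pmk j k (Sum.inr q) = pmk j k (Sum.inr q') := h
      rw [this]
    have h2 : tmk (S := S) q (1 : S) = tmk q' (1 : S) := PE_of_tmk_eq hj hk h1
    have h3 := congrArg (Quot.lift (fun p : R × S => op p.2 • p.1) (by
      rintro _ _ ⟨a, s, x, rfl, rfl⟩
      simp only [smul_eq_mul, op_mul, mul_smul])) h2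
    simpa [tmk] using h3
  tinj := fun X _ p p' x x' h => PE_of_tmk_eq hj hk h
  stable := by
    intro X _ q w x x' h
    obtain ⟨b, rfl⟩ := pmk_surj j k w
    have h' := PE_of_tmk_eq hj hk (a := Sum.inr q) h
    obtain b | b := b
    · obtain ⟨p, z, e1, e2⟩ := h'
      obtain ⟨p', hp'⟩ := hj.stable X _ _ _ _ e1
      exact ⟨k p', e2.symm.trans (tmk_map k hp')⟩
    · exact ⟨b, h'⟩

theorem PO_flat (hj : Good j) (hk : Good k) (hQ : IsFlat S Q) (hR : IsFlat S R) :
    IsFlat S (PO j k) := by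
  rw [isFlat_iff] at hQ hR ⊢
  intro X Y _ _ f hf w w' x x' e
  obtain ⟨a, rfl⟩ := pmk_surj j k w
  obtain ⟨b, rfl⟩ := pmk_surj j k w'
  have key : ∀ (q : Q) (r : R) (x x' : X), PE j k (Sum.inl q, f x) (Sum.inr r, f x') →
      tmk (S := S) (pmk j k (Sum.inl q)) x = tmk (pmk j k (Sum.inr r)) x' := by
    rintro q r x x' ⟨p, z, e1, e2⟩
    obtain ⟨p', hp'⟩ := hk.stable Y _ _ _ _ e2
    have h1 := hQ X Y f hf _ _ _ _ (e1.symm.trans (tmk_map j hp'))
    have h2 := hR X Y f hf _ _ _ _ (e2.symm.trans (tmk_map k hp'))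
    have h1' := tmk_map (pinl j k) h1
    have h2' := tmk_map (pinr j k) h2
    rw [pinl_comp] at h1'
    exact h1'.trans h2'.symm
  have h := PE_of_tmk_eq hj hk e
  obtain a | a := a <;> obtain b | b := b
  · exact tmk_map (pinl j k) (hQ X Y f hf _ _ _ _ h)
  · exact key _ _ _ _ h
  · exact (key _ _ _ _ (PE_symm j k h)).symm
  · exact tmk_map (pinr j k) (hR X Y f hf _ _ _ _ h)

end pushout

end part2

section part3

variable {S : Type u} [Monoid S]

section chain

/-- chains in a right act -/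
def Chain {F : Type u} [MulAction Sᵐᵒᵖ F] : List (S × S) → F → F → Prop
  | [], f, f' => f = f'
  | (s, t) :: l, f, f' => ∃ g : F, f = op s • g ∧ Chain l (op t • g) f'

/-- chains in a left act -/
def Toss {X : Type u} [MulAction S X] : List (S × S) → X → X → Prop
  | [], x, x' => x = x'
  | (s, t) :: l, x, x' => ∃ y : X, s • x = t • y ∧ Toss l y x'

variable {F X : Type u} [MulAction Sᵐᵒᵖ F] [MulAction S X]

theorem tmk_eq_of_chain : ∀ (l : List (S × S)) (f f' : F) (x x' : X), Chain l f f' → Toss l x x' →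
    tmk (S := S) f x = tmk f' x'
  | [], f, f', x, x', h1, h2 => by
    rw [Chain] at h1; rw [Toss] at h2; rw [h1, h2]
  | (s, t) :: l, f, f', x, x', h1, h2 => by
    obtain ⟨g, hg, h1⟩ := h1
    obtain ⟨y, hy, h2⟩ := h2
    rw [← tmk_eq_of_chain l _ _ _ _ h1 h2, hg, tmk_smul, tmk_smul, hy]

theorem chain_append : ∀ (l m : List (S × S)) (f f' f'' : F), Chain l f f' → Chain m f' f'' →
    Chain (l ++ m) f f''
  | [], m, f, f', f'', h1, h2 => by rw [Chain] at h1; rw [h1]; exact h2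
  | (s, t) :: l, m, f, f', f'', h1, h2 => by
    obtain ⟨g, hg, h1⟩ := h1
    exact ⟨g, hg, chain_append l m _ _ _ h1 h2⟩

theorem toss_append : ∀ (l m : List (S × S)) (f f' f'' : X), Toss l f f' → Toss m f' f'' →
    Toss (l ++ m) f f''
  | [], m, f, f', f'', h1, h2 => by rw [Toss] at h1; rw [h1]; exact h2
  | (s, t) :: l, m, f, f', f'', h1, h2 => by
    obtain ⟨g, hg, h1⟩ := h1
    exact ⟨g, hg, toss_append l m _ _ _ h1 h2⟩

/-- reversal of a skeleton -/
def rev : List (S × S) → List (S × S)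
  | [] => []
  | (s, t) :: l => rev l ++ [(t, s)]

theorem chain_rev : ∀ (l : List (S × S)) (f f' : F), Chain l f f' → Chain (rev l) f' f
  | [], f, f', h => Eq.symm h
  | (s, t) :: l, f, f', h => by
    obtain ⟨g, hg, h⟩ := h
    exact chain_append _ _ _ _ _ (chain_rev l _ _ h) ⟨g, rfl, hg.symm⟩

theorem toss_rev : ∀ (l : List (S × S)) (f f' : X), Toss l f f' → Toss (rev l) f' f
  | [], f, f', h => Eq.symm h
  | (s, t) :: l, f, f', h => by
    obtain ⟨g, hg, h⟩ := h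
    exact toss_append _ _ _ _ _ (toss_rev l _ _ h) ⟨f, hg.symm, rfl⟩

theorem exists_chain {f f' : F} {x x' : X} (h : tmk (S := S) f x = tmk f' x') :
    ∃ l : List (S × S), Chain l f f' ∧ Toss l x x' := by
  refine tmk_eq_induction (R := fun p q => ∃ l : List (S × S), Chain l p.1 q.1 ∧ Toss l p.2 q.2)
    ?_ ?_ ?_ ?_ h
  · intro p
    exact ⟨[], rfl, rfl⟩
  · rintro p q ⟨l, h1, h2⟩
    exact ⟨rev l, chain_rev _ _ _ h1, toss_rev _ _ _ h2⟩
  · rintro p q r ⟨l, h1, h2⟩ ⟨m, h3, h4⟩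
    exact ⟨l ++ m, chain_append _ _ _ _ _ h1 h3, toss_append _ _ _ _ _ h2 h4⟩
  · intro a s x
    exact ⟨[(s, 1)], ⟨a, rfl, by rw [op_one, one_smul]; rfl⟩, ⟨s • x, by rw [one_smul], rfl⟩⟩

open Classical in
/-- Skolem function -/
noncomputable def w2 : List (S × S) → F → F → F
  | [], f, _ => f
  | (s, t) :: l, f, f' =>
      if h : ∃ g : F, f = op s • g ∧ Chain l (op t • g) f' then h.choose else f

open Classical in
/-- Skolem function -/
noncomputable def w1 : List (S × S) → F → F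
  | [], f => f
  | (s, t) :: l, f =>
      if h : ∃ g : F, f = op s • g ∧ ∃ f' : F, Chain l (op t • g) f' then h.choose else f

/-- closed subacts -/
structure Closed (P : SubMulAction Sᵐᵒᵖ F) : Prop where
  h2 : ∀ (l : List (S × S)) (f f' : F), f ∈ P → f' ∈ P → w2 l f f' ∈ P
  h1 : ∀ (l : List (S × S)) (f : F), f ∈ P → w1 l f ∈ P

variable {P : SubMulAction Sᵐᵒᵖ F}

theorem Closed.chain2 (hP : Closed P) : ∀ (l : List (S × S)) (p p' : P),
    Chain l (p : F) (p' : F) → Chain l p p'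
  | [], p, p', h => Subtype.ext h
  | (s, t) :: l, p, p', h => by
    have h' : ∃ g : F, (p : F) = op s • g ∧ Chain l (op t • g) (p' : F) := h
    have e : w2 ((s, t) :: l) (p : F) (p' : F) = h'.choose := by
      rw [w2, dif_pos h']
    have hm := hP.h2 ((s, t) :: l) p p' p.2 p'.2
    rw [e] at hm
    refine ⟨⟨h'.choose, hm⟩, Subtype.ext h'.choose_spec.1, ?_⟩
    exact Closed.chain2 hP l (op t • ⟨h'.choose, hm⟩) p' h'.choose_spec.2

theorem Closed.chain1 (hP : Closed P) : ∀ (l : List (S × S)) (p : P) (f : F),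
    Chain l (p : F) f → ∃ p' : P, Chain l p p'
  | [], p, f, h => ⟨p, rfl⟩
  | (s, t) :: l, p, f, h => by
    have h' : ∃ g : F, (p : F) = op s • g ∧ ∃ f' : F, Chain l (op t • g) f' := by
      obtain ⟨g, hg, h⟩ := h
      exact ⟨g, hg, f, h⟩
    have e : w1 ((s, t) :: l) (p : F) = h'.choose := by
      rw [w1, dif_pos h']
    have hm := hP.h1 ((s, t) :: l) p p.2
    rw [e] at hm
    obtain ⟨f', hf'⟩ := h'.choose_spec.2
    obtain ⟨p', hp'⟩ := Closed.chain1 hP l (op t • ⟨h'.choose, hm⟩) f' hf'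
    exact ⟨p', ⟨h'.choose, hm⟩, Subtype.ext h'.choose_spec.1, hp'⟩

theorem Closed.good (hP : Closed P) : Good P.subtype where
  inj := Subtype.val_injective
  tinj := by
    intro X _ p p' x x' h
    obtain ⟨l, h1, h2⟩ := exists_chain h
    exact tmk_eq_of_chain l _ _ _ _ (hP.chain2 l p p' h1) h2
  stable := by
    intro X _ p q x x' h
    obtain ⟨l, h1, h2⟩ := exists_chain h
    obtain ⟨p', hp'⟩ := hP.chain1 l p q h1
    exact ⟨p', tmk_eq_of_chain l _ _ _ _ hp' h2⟩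

/-- shapes of Skolem terms -/
abbrev Shape (S : Type u) (Z : Type u) : Type u := Z ⊕ (S ⊕ (List (S × S) ⊕ List (S × S)))

/-- arities of Skolem terms -/
def Ar {Z : Type u} : Shape S Z → Type
  | Sum.inl _ => Empty
  | Sum.inr (Sum.inl _) => Unit
  | Sum.inr (Sum.inr (Sum.inl _)) => Unit
  | Sum.inr (Sum.inr (Sum.inr _)) => Bool

/-- evaluation of Skolem terms -/
noncomputable def ev (Z : Set F) : WType (Ar (S := S) (Z := Z)) → F
  | ⟨Sum.inl z, _⟩ => z
  | ⟨Sum.inr (Sum.inl s), f⟩ => op s • ev Z (f ())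
  | ⟨Sum.inr (Sum.inr (Sum.inl l)), f⟩ => w1 l (ev Z (f ()))
  | ⟨Sum.inr (Sum.inr (Sum.inr l)), f⟩ => w2 l (ev Z (f true)) (ev Z (f false))

/-- Skolem hull -/
noncomputable def hull (Z : Set F) : SubMulAction Sᵐᵒᵖ F where
  carrier := Set.range (ev (S := S) Z)
  smul_mem' := by
    rintro s _ ⟨t, rfl⟩
    exact ⟨⟨Sum.inr (Sum.inl s.unop), fun _ => t⟩, by rw [ev]; rfl⟩

theorem hull_closed (Z : Set F) : Closed (hull (S := S) Z) where
  h1 := by
    rintro l _ ⟨t, rfl⟩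
    exact ⟨⟨Sum.inr (Sum.inr (Sum.inl l)), fun _ => t⟩, by rw [ev]⟩
  h2 := by
    rintro l _ _ ⟨t, rfl⟩ ⟨t', rfl⟩
    exact ⟨⟨Sum.inr (Sum.inr (Sum.inr l)), fun b => cond b t t'⟩, by rw [ev]; rfl⟩

theorem subset_hull (Z : Set F) : Z ⊆ hull (S := S) Z := by
  intro z hz
  exact ⟨⟨Sum.inl ⟨z, hz⟩, fun e => e.elim⟩, by rw [ev]⟩

theorem mk_hull (Z : Set F) (hZ : #Z ≤ max #S ℵ₀) : #(hull (S := S) Z) ≤ max #S ℵ₀ := by
  have h1 : #(hull (S := S) Z) ≤ #(WType (Ar (S := S) (Z := Z))) := Cardinal.mk_range_le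
  have : ∀ a : Shape S Z, Finite (Ar (S := S) a) := by
    rintro (z | s | l | l)
    · exact inferInstanceAs (Finite Empty)
    · exact inferInstanceAs (Finite Unit)
    · exact inferInstanceAs (Finite Unit)
    · exact inferInstanceAs (Finite Bool)
  have h2 : #(WType (Ar (S := S) (Z := Z))) ≤ max (Cardinal.lift.{0} #(Shape S Z)) ℵ₀ :=
    WType.cardinalMk_le_max_aleph0_of_finite'
  refine h1.trans (h2.trans ?_)
  have hK : #(List (S × S)) ≤ max #S ℵ₀ := by
    rw [Cardinal.mk_list_eq_max_mk_aleph0, Cardinal.mk_prod, Cardinal.lift_id]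
    refine max_le ?_ (le_max_right _ _)
    calc #S * #S ≤ (max #S ℵ₀) * (max #S ℵ₀) := by gcongr <;> exact le_max_left _ _
      _ = max #S ℵ₀ := Cardinal.mul_eq_self (le_max_right _ _)
  have hs : ∀ a b : Cardinal.{u}, a ≤ max #S ℵ₀ → b ≤ max #S ℵ₀ → a + b ≤ max #S ℵ₀ :=
    fun a b ha hb => Cardinal.add_le_of_le (le_max_right _ _) ha hb
  rw [Cardinal.lift_uzero]
  refine max_le ?_ (le_max_right _ _)
  simp only [Shape, Cardinal.mk_sum, Cardinal.lift_id]
  exact hs _ _ hZ (hs _ _ (le_max_left _ _) (hs _ _ hK hK))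

end chain

end part3

section part4

variable {S : Type u} [Monoid S]

theorem Good.of_inverse {P Q : Type u} [MulAction Sᵐᵒᵖ P] [MulAction Sᵐᵒᵖ Q]
    (j : P →[Sᵐᵒᵖ] Q) (j' : Q →[Sᵐᵒᵖ] P) (h1 : ∀ p, j' (j p) = p) (h2 : ∀ q, j (j' q) = q) :
    Good j where
  inj := Function.LeftInverse.injective h1
  tinj := by
    intro X _ p p' x x' h
    have := tmk_map j' h
    rwa [h1, h1] at this
  stable := by
    intro X _ p q x x' h
    have := tmk_map j' h
    rw [h1] at this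
    exact ⟨j' q, this⟩

/-- Set of representatives of small flat acts over `A`. -/
structure SAct (S : Type u) [Monoid S] (A : Type u) [MulAction Sᵐᵒᵖ A] : Type u where
  T : Set (List S)
  [inst : MulAction Sᵐᵒᵖ T]
  π : T →[Sᵐᵒᵖ] A
  flat : IsFlat S T

attribute [instance] SAct.inst

variable {A : Type u} [MulAction Sᵐᵒᵖ A]

/-- the act -/
def SAct.toFAct (i : SAct S A) : FAct S A where
  X := i.T
  π := i.π
  flat := i.flat

theorem mk_small (i : SAct S A) : #i.toFAct.X ≤ max #S ℵ₀ := by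
  have : #i.T ≤ #(List S) := Cardinal.mk_set_le _
  rw [Cardinal.mk_list_eq_max_mk_aleph0] at this
  exact this

theorem exists_rep_small (P : FAct S A) (hP : #P.X ≤ max #S ℵ₀) :
    ∃ (i : SAct S A) (j : FHom P i.toFAct) (j' : FHom i.toFAct P), Good j.f ∧ Good j'.f ∧
      (∀ p, j' (j p) = p) ∧ (∀ q, j (j' q) = q) := by
  rw [← Cardinal.mk_list_eq_max_mk_aleph0] at hP
  obtain ⟨e⟩ := hP
  let T : Set (List S) := Set.range e
  let E : P.X ≃ T := Equiv.ofInjective e e.injective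
  let _ : MulAction Sᵐᵒᵖ T := Equiv.mulAction Sᵐᵒᵖ E.symm
  let j : P.X →[Sᵐᵒᵖ] T := ⟨E, fun s x => by
    change E (s • x) = E (s • E.symm (E x))
    rw [Equiv.symm_apply_apply]⟩
  let j' : T →[Sᵐᵒᵖ] P.X := ⟨E.symm, fun s x => by
    change E.symm (E (s • E.symm x)) = _
    rw [Equiv.symm_apply_apply]; rfl⟩
  have h1 : ∀ p, j' (j p) = p := fun p => E.symm_apply_apply p
  have h2 : ∀ q, j (j' q) = q := fun q => E.apply_symm_apply q
  have g1 : Good j := Good.of_inverse j j' h1 h2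
  have g2 : Good j' := Good.of_inverse j' j h2 h1
  let i : SAct S A := { T := T, π := P.π.comp j', flat := g2.flat P.flat }
  refine ⟨i, ⟨j, ?_⟩, ⟨j', ?_⟩, g1, g2, h1, h2⟩
  · intro x
    change P.π (j' (j x)) = _
    rw [h1]
  · intro x
    rfl

/-- pushout as a flat act over `A` -/
def POF {P Q R : FAct S A} (f : FHom P Q) (g : FHom P R) (hf : Good f.f) (hg : Good g.f) :
    FAct S A where
  X := PO f.f g.f
  π := ⟨Quot.lift (Sum.elim Q.π R.π) (by
      rintro _ _ ⟨p⟩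
      simp only [Sum.elim_inl, Sum.elim_inr]
      rw [f.hov, g.hov]), by
      intro s w
      obtain ⟨a | a, rfl⟩ := pmk_surj _ _ w
      · exact Q.π.map_smul s a
      · exact R.π.map_smul s a⟩
  flat := PO_flat hf hg Q.flat R.flat

/-- The diagram of all small flat acts over `A` and good embeddings. -/
def DD (S : Type u) [Monoid S] (A : Type u) [MulAction Sᵐᵒᵖ A] : Diag S A where
  ι := SAct S A
  P := SAct.toFAct
  M := fun f => Good f.f
  id_mem := fun i => Good.id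
  comp_mem := fun f g hf hg => hg.comp hf
  ore := by
    intro i j k f g hf hg
    have hsm : #(POF f g hf hg).X ≤ max #S ℵ₀ := by
      have h1 : #(POF f g hf hg).X ≤ #(j.toFAct.X ⊕ k.toFAct.X) := Cardinal.mk_quot_le
      rw [Cardinal.mk_sum, Cardinal.lift_id, Cardinal.lift_id] at h1
      exact h1.trans (Cardinal.add_le_of_le (le_max_right _ _) (mk_small j) (mk_small k))
    obtain ⟨l, e, e', he, he', h1, h2⟩ := exists_rep_small (POF f g hf hg) hsm
    refine ⟨l, e.comp ⟨pinl f.f g.f, fun _ => rfl⟩, e.comp ⟨pinr f.f g.f, fun _ => rfl⟩,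
      he.comp (pinl_good hf hg), he.comp (pinr_good hf hg), ?_⟩
    apply FHom.ext'
    intro x
    exact congrArg e (pinl_comp f.f g.f x)

theorem LS (F : FAct S A) (Z : Set F.X) (hZ : #Z ≤ max #S ℵ₀) :
    ∃ (i : SAct S A) (j : FHom i.toFAct F), Good j.f ∧ Z ⊆ Set.range j := by
  have hc := hull_closed (S := S) Z
  have hg := hc.good
  let P : FAct S A := { X := hull (S := S) Z, π := F.π.comp (hull (S := S) Z).subtype,
                        flat := hg.flat F.flat }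
  obtain ⟨i, e, e', he, he', h1, h2⟩ := exists_rep_small P (mk_hull Z hZ)
  refine ⟨i, (⟨(hull (S := S) Z).subtype, fun _ => rfl⟩ : FHom P F).comp e', hg.comp he', ?_⟩
  intro z hz
  refine ⟨e ⟨z, subset_hull Z hz⟩, ?_⟩
  rw [FHom.comp_apply, h1]
  rfl

theorem factor {P Q F : FAct S A} (m : FHom Q F) (hm : Function.Injective m) (j : FHom P F)
    (h : Set.range j ⊆ Set.range m) : ∃ u : FHom P Q, ∀ x, m (u x) = j x := by
  choose u hu using fun x => h ⟨x, rfl⟩
  refine ⟨⟨⟨u, ?_⟩, ?_⟩, hu⟩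
  · intro s x
    apply hm
    rw [hu, FHom.map_smul]
    change _ = m (s • u x)
    rw [FHom.map_smul, hu]
  · intro x
    rw [← m.hov, ← j.hov]
    exact congrArg F.π (hu x)

/-- the type of an element of a flat act over `A` -/
def Rep (F : FAct S A) (x : F.X) (g : (DD S A).Carrier) : Prop :=
  ∃ (i : SAct S A) (j : FHom i.toFAct F) (t : i.toFAct.X), Good j.f ∧ j t = x ∧
    g = (DD S A).cmk i t

theorem exists_Rep (F : FAct S A) (x : F.X) : ∃ g, Rep F x g := by
  obtain ⟨i, j, hj, h⟩ := LS F {x} (by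
    rw [Cardinal.mk_singleton]
    exact Cardinal.one_le_aleph0.trans (le_max_right _ _))
  obtain ⟨t, ht⟩ := h rfl
  exact ⟨_, i, j, t, hj, ht, rfl⟩

theorem Rep_unique {F : FAct S A} {x : F.X} {g g' : (DD S A).Carrier} (h : Rep F x g)
    (h' : Rep F x g') : g = g' := by
  obtain ⟨i, j, t, hj, rfl, rfl⟩ := h
  obtain ⟨i', j', t', hj', ht, rfl⟩ := h'
  obtain ⟨k, m, hm, hr⟩ := LS F (Set.range j ∪ Set.range j') (by
    refine (Cardinal.mk_union_le _ _).trans (Cardinal.add_le_of_le (le_max_right _ _) ?_ ?_)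
    · exact Cardinal.mk_range_le.trans (mk_small i)
    · exact Cardinal.mk_range_le.trans (mk_small i'))
  obtain ⟨u, hu⟩ := factor m hm.inj j (Set.subset_union_left.trans hr)
  obtain ⟨u', hu'⟩ := factor m hm.inj j' (Set.subset_union_right.trans hr)
  have hmu : m.comp u = j := FHom.ext' hu
  have hmu' : m.comp u' = j' := FHom.ext' hu'
  have gu : Good u.f := Good.of_comp (k := m.f) (by
    have : Good (m.comp u).f := by rw [hmu]; exact hj
    exact this)
  have gu' : Good u'.f := Good.of_comp (k := m.f) (by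
    have : Good (m.comp u').f := by rw [hmu']; exact hj'
    exact this)
  refine (Diag.cmk_eq (DD S A)).2 ⟨k, u, u', gu, gu', ?_⟩
  exact hm.inj ((hu t).trans (ht.symm.trans (hu' t').symm))

/-- the weakly terminal object -/
def GG (S : Type u) [Monoid S] (A : Type u) [MulAction Sᵐᵒᵖ A] : FAct S A := (DD S A).colim

theorem precover (F : FAct S A) : Nonempty (FHom F (GG S A)) := by
  choose c hc using exists_Rep F
  refine ⟨⟨⟨c, ?_⟩, ?_⟩⟩
  · intro s x
    apply Rep_unique (hc _)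
    obtain ⟨i, j, t, hj, ht, hg⟩ := hc x
    refine ⟨i, j, s • t, hj, ?_, ?_⟩
    · rw [FHom.map_smul, ht]
    · rw [hg]; rfl
  · intro x
    obtain ⟨i, j, t, hj, ht, hg⟩ := hc x
    change (GG S A).π (c x) = _
    rw [hg, ← ht, j.hov]
    rfl

end part4

section part5

variable {S : Type u} [Monoid S] {A : Type u} [MulAction Sᵐᵒᵖ A]

theorem FHom.comp_assoc {P Q R T : FAct S A} (h : FHom R T) (g : FHom Q R) (f : FHom P Q) :
    (h.comp g).comp f = h.comp (g.comp f) := rfl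

theorem FHom.comp_id {P Q : FAct S A} (f : FHom P Q) : f.comp (FHom.id P) = f :=
  FHom.ext' fun _ => rfl

theorem FHom.id_comp {P Q : FAct S A} (f : FHom P Q) : (FHom.id Q).comp f = f :=
  FHom.ext' fun _ => rfl

/-- coherent systems -/
structure Sys (X : FAct S A) (N : FHom X X → FHom X X → Prop) (V : Type u) where
  I : Set V
  r : V → V → Prop
  v : V → V → FHom X X
  u : V → FHom X X
  irr : ∀ i ∈ I, ¬ r i i
  tr : ∀ i ∈ I, ∀ j ∈ I, ∀ k ∈ I, r i j → r j k → r i k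
  tot : ∀ i ∈ I, ∀ j ∈ I, i ≠ j → r i j ∨ r j i
  coh : ∀ i ∈ I, ∀ j ∈ I, ∀ k ∈ I, r i j → r j k → (v j k).comp (v i j) = v i k
  base : ∀ i ∈ I, ∀ j ∈ I, r i j → (v i j).comp (u i) = u j
  str : ∀ i ∈ I, ∀ j ∈ I, r i j → N (u i) (v i j)

variable {X : FAct S A} {N : FHom X X → FHom X X → Prop} {V : Type u}

instance : Preorder (Sys X N V) where
  le := fun s s' => s.I ⊆ s'.I ∧ (∀ i ∈ s.I, ∀ j ∈ s.I, (s.r i j ↔ s'.r i j) ∧
    s.v i j = s'.v i j) ∧ ∀ i ∈ s.I, s.u i = s'.u i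
  le_refl := fun s => ⟨subset_rfl, fun i _ j _ => ⟨Iff.rfl, rfl⟩, fun i _ => rfl⟩
  le_trans := fun s s' s'' h h' => ⟨h.1.trans h'.1, fun i hi j hj =>
    ⟨(h.2.1 i hi j hj).1.trans (h'.2.1 i (h.1 hi) j (h.1 hj)).1,
      (h.2.1 i hi j hj).2.trans (h'.2.1 i (h.1 hi) j (h.1 hj)).2⟩,
    fun i hi => (h.2.2 i hi).trans (h'.2.2 i (h.1 hi))⟩

theorem Sys.le_def {s s' : Sys X N V} : s ≤ s' ↔ s.I ⊆ s'.I ∧ (∀ i ∈ s.I, ∀ j ∈ s.I,
    (s.r i j ↔ s'.r i j) ∧ s.v i j = s'.v i j) ∧ ∀ i ∈ s.I, s.u i = s'.u i := Iff.rfl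

open Classical in
theorem Sys.bdd (c : Set (Sys X N V)) (hc : IsChain (· ≤ ·) c) : BddAbove c := by
  let I : Set V := {i | ∃ s ∈ c, i ∈ s.I}
  let r : V → V → Prop := fun i j => ∃ s ∈ c, i ∈ s.I ∧ j ∈ s.I ∧ s.r i j
  let v : V → V → FHom X X := fun i j =>
    if h : ∃ s, s ∈ c ∧ i ∈ s.I ∧ j ∈ s.I then h.choose.v i j else FHom.id X
  let u : V → FHom X X := fun i => if h : ∃ s, s ∈ c ∧ i ∈ s.I then h.choose.u i else FHom.id X
  have hr : ∀ s ∈ c, ∀ i ∈ s.I, ∀ j ∈ s.I, (s.r i j ↔ r i j) := by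
    intro s hs i hi j hj
    refine ⟨fun h => ⟨s, hs, hi, hj, h⟩, ?_⟩
    rintro ⟨s', hs', hi', hj', h⟩
    obtain h1 | h1 := hc.total hs hs'
    · exact (h1.2.1 i hi j hj).1.2 h
    · exact (h1.2.1 i hi' j hj').1.1 h
  have hv : ∀ s ∈ c, ∀ i ∈ s.I, ∀ j ∈ s.I, s.v i j = v i j := by
    intro s hs i hi j hj
    have h : ∃ s, s ∈ c ∧ i ∈ s.I ∧ j ∈ s.I := ⟨s, hs, hi, hj⟩
    have e : v i j = h.choose.v i j := by simp only [v]; rw [dif_pos h]
    obtain ⟨hs', hi', hj'⟩ := h.choose_spec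
    rw [e]
    obtain h1 | h1 := hc.total hs hs'
    · exact (h1.2.1 i hi j hj).2
    · exact (h1.2.1 i hi' j hj').2.symm
  have hu : ∀ s ∈ c, ∀ i ∈ s.I, s.u i = u i := by
    intro s hs i hi
    have h : ∃ s, s ∈ c ∧ i ∈ s.I := ⟨s, hs, hi⟩
    have e : u i = h.choose.u i := by simp only [u]; rw [dif_pos h]
    obtain ⟨hs', hi'⟩ := h.choose_spec
    rw [e]
    obtain h1 | h1 := hc.total hs hs'
    · exact h1.2.2 i hi
    · exact (h1.2.2 i hi').symm
  have dir2 : ∀ i ∈ I, ∀ j ∈ I, ∃ s ∈ c, i ∈ s.I ∧ j ∈ s.I := by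
    rintro i ⟨s, hs, hi⟩ j ⟨s', hs', hj⟩
    obtain h1 | h1 := hc.total hs hs'
    · exact ⟨s', hs', h1.1 hi, hj⟩
    · exact ⟨s, hs, hi, h1.1 hj⟩
  have dir3 : ∀ i ∈ I, ∀ j ∈ I, ∀ k ∈ I, ∃ s ∈ c, i ∈ s.I ∧ j ∈ s.I ∧ k ∈ s.I := by
    rintro i hi j hj k ⟨s', hs', hk⟩
    obtain ⟨s, hs, hi, hj⟩ := dir2 i hi j hj
    obtain h1 | h1 := hc.total hs hs'
    · exact ⟨s', hs', h1.1 hi, h1.1 hj, hk⟩
    · exact ⟨s, hs, hi, hj, h1.1 hk⟩
  let m : Sys X N V :=
    { I := I
      r := r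
      v := v
      u := u
      irr := by
        rintro i ⟨s, hs, hi⟩ h
        exact s.irr i hi ((hr s hs i hi i hi).2 h)
      tr := by
        intro i hi j hj k hk hij hjk
        obtain ⟨s, hs, hi, hj, hk⟩ := dir3 i hi j hj k hk
        rw [← hr s hs _ hi _ hj] at hij
        rw [← hr s hs _ hj _ hk] at hjk
        rw [← hr s hs _ hi _ hk]
        exact s.tr i hi j hj k hk hij hjk
      tot := by
        intro i hi j hj hij
        obtain ⟨s, hs, hi, hj⟩ := dir2 i hi j hj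
        rw [← hr s hs _ hi _ hj, ← hr s hs _ hj _ hi]
        exact s.tot i hi j hj hij
      coh := by
        intro i hi j hj k hk hij hjk
        obtain ⟨s, hs, hi, hj, hk⟩ := dir3 i hi j hj k hk
        rw [← hr s hs _ hi _ hj] at hij
        rw [← hr s hs _ hj _ hk] at hjk
        rw [← hv s hs _ hi _ hj, ← hv s hs _ hj _ hk, ← hv s hs _ hi _ hk]
        exact s.coh i hi j hj k hk hij hjk
      base := by
        intro i hi j hj hij
        obtain ⟨s, hs, hi, hj⟩ := dir2 i hi j hj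
        rw [← hr s hs _ hi _ hj] at hij
        rw [← hv s hs _ hi _ hj, ← hu s hs _ hi, ← hu s hs _ hj]
        exact s.base i hi j hj hij
      str := by
        intro i hi j hj hij
        obtain ⟨s, hs, hi, hj⟩ := dir2 i hi j hj
        rw [← hr s hs _ hi _ hj] at hij
        rw [← hv s hs _ hi _ hj, ← hu s hs _ hi]
        exact s.str i hi j hj hij }
  refine ⟨m, fun s hs => ?_⟩
  rw [Sys.le_def]
  exact ⟨fun i hi => ⟨s, hs, hi⟩, fun i hi j hj => ⟨hr s hs i hi j hj, hv s hs i hi j hj⟩,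
    fun i hi => hu s hs i hi⟩

/-- the diagram of a coherent system -/
def Sys.diag (s : Sys X N V) : Diag S A where
  ι := s.I
  P := fun _ => X
  M := fun {i j} f => (i = j ∧ f = FHom.id X) ∨ (s.r i j ∧ f = s.v i j)
  id_mem := fun i => Or.inl ⟨rfl, rfl⟩
  comp_mem := by
    rintro i j k f g (⟨rfl, rfl⟩ | ⟨h1, rfl⟩) (⟨rfl, rfl⟩ | ⟨h2, rfl⟩)
    · exact Or.inl ⟨rfl, rfl⟩
    · exact Or.inr ⟨h2, rfl⟩
    · exact Or.inr ⟨h1, rfl⟩
    · exact Or.inr ⟨s.tr _ i.2 _ j.2 _ k.2 h1 h2, s.coh _ i.2 _ j.2 _ k.2 h1 h2⟩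
  ore := by
    intro i j k f g hf hg
    have comp : ∀ {i j k : s.I} (f g : FHom X X),
        ((i = j ∧ f = FHom.id X) ∨ (s.r i j ∧ f = s.v i j)) →
        ((j = k ∧ g = FHom.id X) ∨ (s.r j k ∧ g = s.v j k)) →
        ((i = k ∧ g.comp f = FHom.id X) ∨ (s.r i k ∧ g.comp f = s.v i k)) := by
      rintro i j k f g (⟨rfl, rfl⟩ | ⟨h1, rfl⟩) (⟨rfl, rfl⟩ | ⟨h2, rfl⟩)
      · exact Or.inl ⟨rfl, rfl⟩
      · exact Or.inr ⟨h2, rfl⟩
      · exact Or.inr ⟨h1, rfl⟩
      · exact Or.inr ⟨s.tr _ i.2 _ j.2 _ k.2 h1 h2, s.coh _ i.2 _ j.2 _ k.2 h1 h2⟩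
    have uniq : ∀ {i j : s.I} (f g : FHom X X),
        ((i = j ∧ f = FHom.id X) ∨ (s.r i j ∧ f = s.v i j)) →
        ((i = j ∧ g = FHom.id X) ∨ (s.r i j ∧ g = s.v i j)) → f = g := by
      rintro i j f g (⟨e1, rfl⟩ | ⟨h1, rfl⟩) (⟨e2, rfl⟩ | ⟨h2, rfl⟩)
      · rfl
      · subst e1; exact absurd h2 (s.irr _ i.2)
      · subst e2; exact absurd h1 (s.irr _ i.2)
      · rfl
    have main : ∀ (l : s.I) (f' g' : FHom X X),
        ((j = l ∧ f' = FHom.id X) ∨ (s.r j l ∧ f' = s.v j l)) →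
        ((k = l ∧ g' = FHom.id X) ∨ (s.r k l ∧ g' = s.v k l)) → f'.comp f = g'.comp g :=
      fun l f' g' hf' hg' => uniq _ _ (comp _ _ hf hf') (comp _ _ hg hg')
    by_cases hjk : j = k
    · refine ⟨k, FHom.id X, FHom.id X, Or.inl ⟨hjk, rfl⟩, Or.inl ⟨rfl, rfl⟩,
        main k _ _ (Or.inl ⟨hjk, rfl⟩) (Or.inl ⟨rfl, rfl⟩)⟩
    · obtain h | h := s.tot _ j.2 _ k.2 (fun h => hjk (Subtype.ext h))
      · exact ⟨k, s.v j k, FHom.id X, Or.inr ⟨h, rfl⟩, Or.inl ⟨rfl, rfl⟩,
          main k _ _ (Or.inr ⟨h, rfl⟩) (Or.inl ⟨rfl, rfl⟩)⟩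
      · exact ⟨j, FHom.id X, s.v k j, Or.inl ⟨rfl, rfl⟩, Or.inr ⟨h, rfl⟩,
          main j _ _ (Or.inl ⟨rfl, rfl⟩) (Or.inr ⟨h, rfl⟩)⟩

/-- the cocone of a coherent system -/
def Sys.inc (s : Sys X N V) (i : V) (hi : i ∈ s.I) : FHom X s.diag.colim :=
  s.diag.inc (⟨i, hi⟩ : s.I)

theorem Sys.inc_comp (s : Sys X N V) (i j : V) (hi : i ∈ s.I) (hj : j ∈ s.I) (h : s.r i j) :
    (s.inc j hj).comp (s.v i j) = s.inc i hi := by
  apply FHom.ext'
  intro x
  exact Diag.cmk_map s.diag (i := (⟨i, hi⟩ : s.I)) (j := (⟨j, hj⟩ : s.I)) (s.v i j)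
    (Or.inr ⟨h, rfl⟩) x

theorem Sys.inc_surj (s : Sys X N V) (c : s.diag.colim.X) :
    ∃ (i : V) (hi : i ∈ s.I) (x : X.X), c = s.inc i hi x := by
  obtain ⟨⟨i, hi⟩, x, hx⟩ := Diag.cmk_surj s.diag c
  exact ⟨i, hi, x, hx⟩

/-- existence of cocones -/
theorem Sys.exists_cocone (hX : ∀ F : FAct S A, Nonempty (FHom F X)) (s : Sys X N V) :
    ∃ (u : FHom X X) (y : V → FHom X X), (∀ i ∈ s.I, (y i).comp (s.u i) = u) ∧
      (∀ i ∈ s.I, ∀ j ∈ s.I, s.r i j → (y j).comp (s.v i j) = y i) := by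
  classical
  obtain ⟨z⟩ := hX s.diag.colim
  let y : V → FHom X X := fun i => if hi : i ∈ s.I then z.comp (s.inc i hi) else FHom.id X
  have hy : ∀ i (hi : i ∈ s.I), y i = z.comp (s.inc i hi) := by
    intro i hi
    simp only [y]
    rw [dif_pos hi]
  have h2 : ∀ i ∈ s.I, ∀ j ∈ s.I, s.r i j → (y j).comp (s.v i j) = y i := by
    intro i hi j hj h
    rw [hy i hi, hy j hj, FHom.comp_assoc, s.inc_comp i j hi hj h]
  by_cases hne : s.I.Nonempty
  · obtain ⟨i₁, hi₁⟩ := hne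
    refine ⟨(y i₁).comp (s.u i₁), y, ?_, h2⟩
    intro i hi
    by_cases h : i = i₁
    · rw [h]
    · obtain h | h := s.tot i hi i₁ hi₁ h
      · rw [← h2 i hi i₁ hi₁ h, FHom.comp_assoc, s.base i hi i₁ hi₁ h]
      · rw [← h2 i₁ hi₁ i hi h, FHom.comp_assoc, s.base i₁ hi₁ i hi h]
  · refine ⟨FHom.id X, y, ?_, h2⟩
    intro i hi
    exact absurd ⟨i, hi⟩ hne

/-- Existence of long coherent systems. -/
theorem exists_sys (hX : ∀ F : FAct S A, Nonempty (FHom F X)) (N : FHom X X → FHom X X → Prop)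
    (H : ∀ u : FHom X X, ∃ w : FHom X X, ∀ u' y : FHom X X, y.comp u' = u → N u' (w.comp y))
    (V : Type u) : ∃ s : Sys X N V, s.I = Set.univ := by
  classical
  obtain ⟨s, hs⟩ := zorn_le (α := Sys X N V) Sys.bdd
  refine ⟨s, ?_⟩
  by_contra hne
  obtain ⟨i₀, hi₀⟩ : ∃ i₀, i₀ ∉ s.I := by
    by_contra h
    push Not at h
    exact hne (Set.eq_univ_of_forall h)
  obtain ⟨u, y, hu, hy⟩ := s.exists_cocone hX
  obtain ⟨w, hw⟩ := H u
  have ne : ∀ i ∈ s.I, i ≠ i₀ := fun i hi h => hi₀ (h ▸ hi)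
  let r' : V → V → Prop := fun i j => (i ∈ s.I ∧ j ∈ s.I ∧ s.r i j) ∨ (i ∈ s.I ∧ j = i₀)
  let v' : V → V → FHom X X := fun i j => if j = i₀ then w.comp (y i) else s.v i j
  let u' : V → FHom X X := fun i => if i = i₀ then w.comp u else s.u i
  have hv1 : ∀ i, v' i i₀ = w.comp (y i) := fun i => if_pos rfl
  have hv2 : ∀ i j, j ∈ s.I → v' i j = s.v i j := fun i j hj => if_neg (ne j hj)
  have hu1 : u' i₀ = w.comp u := if_pos rfl
  have hu2 : ∀ i ∈ s.I, u' i = s.u i := fun i hi => if_neg (ne i hi)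
  let s' : Sys X N V :=
    { I := insert i₀ s.I
      r := r'
      v := v'
      u := u'
      irr := by
        rintro i hi (⟨h, h', h''⟩ | ⟨h, h'⟩)
        · exact s.irr i h h''
        · exact ne i h h'
      tr := by
        rintro i hi j hj k hk (⟨h1, h2, h3⟩ | ⟨h1, h2⟩) (⟨h4, h5, h6⟩ | ⟨h4, h5⟩)
        · exact Or.inl ⟨h1, h5, s.tr i h1 j h2 k h5 h3 h6⟩
        · exact Or.inr ⟨h1, h5⟩
        · exact absurd h2 (ne j h4)
        · exact absurd h2 (ne j h4)
      tot := by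
        rintro i (rfl | hi) j (rfl | hj) hij
        · exact absurd rfl hij
        · exact Or.inr (Or.inr ⟨hj, rfl⟩)
        · exact Or.inl (Or.inr ⟨hi, rfl⟩)
        · obtain h | h := s.tot i hi j hj hij
          · exact Or.inl (Or.inl ⟨hi, hj, h⟩)
          · exact Or.inr (Or.inl ⟨hj, hi, h⟩)
      coh := by
        rintro i hi j hj k hk (⟨h1, h2, h3⟩ | ⟨h1, h2⟩) (⟨h4, h5, h6⟩ | ⟨h4, h5⟩)
        · rw [hv2 i j h2, hv2 j k h5, hv2 i k h5]
          exact s.coh i h1 j h2 k h5 h3 h6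
        · subst h5
          rw [hv2 i j h2, hv1, hv1, FHom.comp_assoc, hy i h1 j h2 h3]
        · exact absurd h2 (ne j h4)
        · exact absurd h2 (ne j h4)
      base := by
        rintro i hi j hj (⟨h1, h2, h3⟩ | ⟨h1, h2⟩)
        · rw [hv2 i j h2, hu2 i h1, hu2 j h2]
          exact s.base i h1 j h2 h3
        · subst h2
          rw [hv1, hu2 i h1, hu1, FHom.comp_assoc, hu i h1]
      str := by
        rintro i hi j hj (⟨h1, h2, h3⟩ | ⟨h1, h2⟩)
        · rw [hv2 i j h2, hu2 i h1]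
          exact s.str i h1 j h2 h3
        · subst h2
          rw [hv1, hu2 i h1]
          exact hw _ _ (hu i h1) }
  have hle : s ≤ s' := by
    rw [Sys.le_def]
    refine ⟨Set.subset_insert _ _, fun i hi j hj => ⟨⟨fun h => Or.inl ⟨hi, hj, h⟩, ?_⟩,
      (hv2 i j hj).symm⟩, fun i hi => (hu2 i hi).symm⟩
    rintro (⟨h1, h2, h3⟩ | ⟨h1, h2⟩)
    · exact h3
    · exact absurd h2 (ne j hj)
  exact hi₀ ((hs hle).1 (Set.mem_insert _ _))

end part5

section part6

variable {S : Type u} [Monoid S] {A : Type u} [MulAction Sᵐᵒᵖ A]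

theorem stageA {X : FAct S A} (hX : ∀ F : FAct S A, Nonempty (FHom F X)) :
    ∃ u : FHom X X, ∀ (w : FHom X X) (x y : X.X), w (u x) = w (u y) → u x = u y := by
  by_contra hcon
  push Not at hcon
  let N : FHom X X → FHom X X → Prop := fun u' v => ∃ x y, v (u' x) = v (u' y) ∧ u' x ≠ u' y
  obtain ⟨s, hs⟩ := exists_sys hX N (by
    intro u
    obtain ⟨w, x, y, h1, h2⟩ := hcon u
    refine ⟨w, fun u' z hz => ⟨x, y, ?_, ?_⟩⟩
    · subst hz
      exact h1
    · intro h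
      apply h2
      subst hz
      exact congrArg z h) (Set (FHom X X))
  have hI : ∀ i, i ∈ s.I := fun i => by rw [hs]; trivial
  have key : ∀ i j, s.r i j → s.u i ≠ s.u j := by
    intro i j hij h
    obtain ⟨x, y, h1, h2⟩ := s.str i (hI i) j (hI j) hij
    have h3 := s.base i (hI i) j (hI j) hij
    rw [← h] at h3
    apply h2
    have e : ∀ x, s.v i j (s.u i x) = s.u i x := fun x =>
      congrArg (fun f : FHom X X => f x) h3
    rw [e, e] at h1
    exact h1
  refine Function.cantor_injective s.u ?_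
  intro i j h
  by_contra hne
  obtain h' | h' := s.tot i (hI i) j (hI j) hne
  · exact key i j h' h
  · exact key j i h' h.symm

/-- iterates of an endomorphism -/
def pow {X : FAct S A} (u : FHom X X) : ℕ → FHom X X
  | 0 => FHom.id X
  | n + 1 => u.comp (pow u n)

theorem pow_add {X : FAct S A} (u : FHom X X) (a b : ℕ) :
    (pow u b).comp (pow u a) = pow u (a + b) := by
  induction b with
  | zero => rfl
  | succ b ih =>
    change (u.comp (pow u b)).comp (pow u a) = u.comp (pow u (a + b))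
    rw [FHom.comp_assoc, ih]

/-- the sequence `X → X → X → ...` -/
def seqDiag {X : FAct S A} (u : FHom X X) : Diag S A where
  ι := ULift.{u} ℕ
  P := fun _ => X
  M := fun {i j} f => ∃ k : ℕ, j.down = i.down + k ∧ f = pow u k
  id_mem := fun i => ⟨0, rfl, rfl⟩
  comp_mem := by
    rintro i j k f g ⟨a, h1, rfl⟩ ⟨b, h2, rfl⟩
    exact ⟨a + b, by omega, pow_add u a b⟩
  ore := by
    rintro i j k f g ⟨a, h1, rfl⟩ ⟨b, h2, rfl⟩
    refine ⟨⟨i.down + a + b⟩, pow u b, pow u a, ⟨b, ?_, rfl⟩, ⟨a, ?_, rfl⟩, ?_⟩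
    · simp only [h1]
    · simp only [h2]; omega
    · rw [pow_add, pow_add, Nat.add_comm]

theorem stageB {X : FAct S A} (hX : ∀ F : FAct S A, Nonempty (FHom F X)) (u : FHom X X)
    (hu : ∀ (w : FHom X X) (x y : X.X), w (u x) = w (u y) → u x = u y) (T' : FAct S A)
    (w : FHom (seqDiag u).colim T') : Function.Injective w := by
  let D := seqDiag u
  let ic : ℕ → FHom X D.colim := fun n => D.inc ⟨n⟩
  have hic : ∀ (n k : ℕ) (x : X.X), ic (n + k) (pow u k x) = ic n x := fun n k x =>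
    Diag.cmk_map D (i := (⟨n⟩ : ULift.{u} ℕ)) (j := (⟨n + k⟩ : ULift.{u} ℕ)) (pow u k)
      ⟨k, rfl, rfl⟩ x
  obtain ⟨w'⟩ := hX T'
  have key : ∀ (n : ℕ) (a b : X.X), w (ic n a) = w (ic n b) → ic n a = ic n b := by
    intro n a b h
    have h1 : ∀ x : X.X, ic (n + 1) (u x) = ic n x := fun x => hic n 1 x
    have h2 := hu ((w'.comp w).comp (ic (n + 1))) a b (by
      simp only [FHom.comp_apply]
      rw [h1, h1, h])
    rw [← h1, ← h1, h2]
  intro c c' h
  obtain ⟨⟨n⟩, x, rfl⟩ := Diag.cmk_surj D c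
  obtain ⟨⟨m⟩, y, rfl⟩ := Diag.cmk_surj D c'
  have e1 : Diag.cmk D (⟨n⟩ : ULift.{u} ℕ) x = ic (n + m) (pow u m x) := (hic n m x).symm
  have e2 : Diag.cmk D (⟨m⟩ : ULift.{u} ℕ) y = ic (n + m) (pow u n y) := by
    rw [Nat.add_comm n m]
    exact (hic m n y).symm
  rw [e1, e2] at h ⊢
  exact key _ _ _ h

theorem stageC {T : FAct S A} (hT : ∀ F : FAct S A, Nonempty (FHom F T))
    (hinj : ∀ w : FHom T T, Function.Injective w) (w : FHom T T) : Function.Surjective w := by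
  by_contra hw
  let N : FHom T T → FHom T T → Prop := fun _ v => ¬ Function.Surjective v
  obtain ⟨s, hs⟩ := exists_sys hT N (by
    intro u
    refine ⟨w, fun u' y _ h => hw ?_⟩
    exact Function.Surjective.of_comp (g := y) h) (Set (Set T.X))
  have hI : ∀ i, i ∈ s.I := fun i => by rw [hs]; trivial
  obtain ⟨_, y, _, hy⟩ := s.exists_cocone hT
  have key : ∀ i j, s.r i j → Set.range (y i) ≠ Set.range (y j) := by
    intro i j hij h
    apply s.str i (hI i) j (hI j) hij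
    intro t
    have h1 : y j t ∈ Set.range (y i) := by rw [h]; exact ⟨t, rfl⟩
    obtain ⟨x, hx⟩ := h1
    rw [← hy i (hI i) j (hI j) hij] at hx
    exact ⟨x, hinj (y j) hx⟩
  refine Function.cantor_injective (fun i => Set.range (y i)) ?_
  intro i j h
  by_contra hne
  obtain h' | h' := s.tot i (hI i) j (hI j) hne
  · exact key i j h' h
  · exact key j i h' h.symm

theorem exists_cover (S : Type u) [Monoid S] (A : Type u) [MulAction Sᵐᵒᵖ A] :
    ∃ T : FAct S A, (∀ F : FAct S A, Nonempty (FHom F T)) ∧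
      ∀ w : FHom T T, Function.Bijective w := by
  obtain ⟨u, hu⟩ := stageA (X := GG S A) precover
  let T := (seqDiag u).colim
  have hT : ∀ F : FAct S A, Nonempty (FHom F T) := by
    intro F
    obtain ⟨f⟩ := precover F
    exact ⟨((seqDiag u).inc ⟨0⟩).comp f⟩
  have hinj : ∀ w : FHom T T, Function.Injective w := fun w => stageB precover u hu T w
  exact ⟨T, hT, fun w => ⟨hinj w, stageC hT hinj w⟩⟩

/-- The regular right act is flat. -/
theorem flat_self : IsFlat S S := by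
  rw [isFlat_iff]
  intro X Y _ _ f hf a a' x x' e
  have h1 : ∀ {Z : Type u} [MulAction S Z] (a : S) (z : Z),
      tmk (S := S) a z = tmk (1 : S) (a • z) := by
    intro Z _ a z
    rw [← tmk_smul]
    simp
  rw [h1, h1 a'] at e ⊢
  have h3 := congrArg (Quot.lift (fun p : S × Y => p.1 • p.2) (by
      rintro _ _ ⟨a, s, x, rfl, rfl⟩
      simp only [op_smul_eq_mul, mul_smul])) e
  have h4 : a • f x = a' • f x' := by simpa [tmk] using h3
  rw [← map_smul, ← map_smul] at h4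
  rw [hf h4]

end part6

end Pool.Agent.Helper6.FlatActs
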